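import Pool.Agent.R205.PC.Dens

/-!
# Cubic (and longer) progressions in almost every group extension of an arbitrary system

`(Y, μ, S)` is an arbitrary invertible measure preserving system on a standard Borel probability space,
not necessarily ergodic, without periodic points (up to a null set), and `K` a group with a countably
generated σ-algebra, measurable multiplication and a probability measure `ρ` invariant under all left and
right translations (for example any compact metrizable group, commutative or not, with its Haar measure).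

For a measurable `c : Y → K` the skew product `skew S c (y, x) = (S y, c y * x)` preserves `μ × ρ`.

The theorem: there is a measurable `ξ : Y → ℕ`, that is, a countable measurable partition of `Y`, such that
for EVERY such `K` and EVERY cocycle `φ : Y → K` the cocycles `c(y) = φ(y) θ(ξ(y))`, with independent `ρ`-distributed
constants `θ(i)` on the pieces `ξ = i`, have with probability one the following property. For all
`0 < a_1 < ⋯ < a_m` and all bounded measurable `f_1, …, f_m` on `Y × K` the averages over `n = 1, …, N` of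
`∏_j f_j (T^(a_j n) z) - ∏_j E(f_j | Y) (S^(a_j n) y)` (with `T = skew S c` and `z = (y, x)`) tend to zero for almost
every `z`. In particular the averages of `f_1 (T^(a_1 n) z) ⋯ f_m (T^(a_m n) z)` converge almost everywhere for all
bounded `f_j` if and only if this is true for the base `(Y, μ, S)`.

Proof. There are nested marker sets with bounded gaps and labels which do not repeat along long pieces of orbits,
so that at all scales every window of the orbit of length about `N^(1/2)` contains a time whose label `ξ` does not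
occur elsewhere in the range `N^D` (`Pool.Agent.R205.PC.exists_labels`). Integrating over the constant with this label
shows that the terms for `n` and `n'` of a telescoped product are orthogonal with respect to `θ` as soon as
`|n - n'|` is larger than the window, for every single point `(y, x)`. A second moment argument, Fubini's theorem, a
countable family dense in `L¹` and the pointwise ergodic theorem finish the proof.
-/

set_option autoImplicit false

open MeasureTheory Filter Topology

namespace Pool.Agent.Results.MP_9721b5_an.AlmostEveryCocycle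

universe u v

/-- the skew product with the cocycle `c` -/
def skew {Y : Type u} {K : Type v} [Mul K] (S : Y → Y) (c : Y → K) (z : Y × K) : Y × K :=
  (S z.1, c z.1 * z.2)

/-- the multiple averages `(1/N) ∑_{n=1}^N ∏_j f_j (T^(a_j n) x)` -/
noncomputable def avg {X : Type*} (T : X → X) {m : ℕ} (a : Fin m → ℕ) (f : Fin m → X → ℂ) (N : ℕ) (x : X) : ℂ :=
  (1 / (N : ℂ)) * ∑ n ∈ Finset.Icc 1 N, ∏ j, f j (T^[a j * n] x)

/-- almost everywhere convergence of the multiple averages of all bounded measurable functions -/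
def Conv {X : Type*} [MeasurableSpace X] (ν : Measure X) (T : X → X) {m : ℕ} (a : Fin m → ℕ) : Prop :=
  ∀ f : Fin m → X → ℂ, (∀ j, Measurable (f j)) → (∃ C, ∀ j x, ‖f j x‖ ≤ C) →
    ∀ᵐ x ∂ν, ∃ L, Tendsto (fun N => avg T a f N x) atTop (𝓝 L)

theorem result {Y : Type u} [MeasurableSpace Y] [StandardBorelSpace Y] (μ : Measure Y) [IsProbabilityMeasure μ]
    (S : Y ≃ᵐ Y) (hS : MeasurePreserving S μ μ) (hap : ∀ᵐ y ∂μ, ∀ n : ℕ, 0 < n → S^[n] y ≠ y) :
    ∃ ξ : Y → ℕ, Measurable ξ ∧ ∀ (K : Type v) [Group K] [MeasurableSpace K] [MeasurableMul₂ K]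
      [MeasurableSpace.CountablyGenerated K] (ρ : Measure K) [IsProbabilityMeasure ρ] [ρ.IsMulLeftInvariant]
      [ρ.IsMulRightInvariant] (φ : Y → K), Measurable φ →
      ∀ᵐ θ ∂(Measure.infinitePi (fun _ : ℕ => ρ)),
        MeasurePreserving (skew S fun y => φ y * θ (ξ y)) (μ.prod ρ) (μ.prod ρ) ∧
        ∀ (m : ℕ) (a : Fin m → ℕ), StrictMono a → (∀ j, 0 < a j) →
          (∀ f : Fin m → Y × K → ℂ, (∀ j, Measurable (f j)) → (∃ C, ∀ j z, ‖f j z‖ ≤ C) →
            ∀ᵐ z ∂(μ.prod ρ), Tendsto (fun N => avg (skew S fun y => φ y * θ (ξ y)) a f N z -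
              avg S a (fun j y => ∫ κ, f j (y, κ) ∂ρ) N z.1) atTop (𝓝 0)) ∧
          (Conv (μ.prod ρ) (skew S fun y => φ y * θ (ξ y)) a ↔ Conv μ S a) := by
  classical
  obtain ⟨ξ, hξ, hfr⟩ := Pool.Agent.R205.PC.exists_labels μ S hS hap Pool.Agent.R205.PC.Lk Pool.Agent.R205.PC.Lk_mono
  refine ⟨ξ, hξ, ?_⟩
  intro K _ _ _ _ ρ _ _ _ φ hφ
  have hfr' : ∀ᵐ y ∂μ, Pool.Agent.R205.PC.Fresh S ξ y := hfr
  filter_upwards [Pool.Agent.R205.PC.all_functions ρ μ S hS φ hφ ξ hξ hfr'] with θ hθ
  have hc : Measurable (fun y => φ y * θ (ξ y)) := hφ.mul ((measurable_of_countable θ).comp hξ)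
  set T : Y × K → Y × K := skew S fun y => φ y * θ (ξ y) with hT
  have hTsk : T = Pool.Agent.R205.PC.sk S (Pool.Agent.R205.PC.cc φ ξ θ) := rfl
  have hTmp : MeasurePreserving T (μ.prod ρ) (μ.prod ρ) := Pool.Agent.R205.PC.mp_sk ρ μ S hS _ hc
  refine ⟨hTmp, ?_⟩
  intro m a ha ha0
  have hdiff : ∀ f : Fin m → Y × K → ℂ, (∀ j, Measurable (f j)) → (∃ C, ∀ j z, ‖f j z‖ ≤ C) →
      ∀ᵐ z ∂(μ.prod ρ), Tendsto (fun N => avg T a f N z -
        avg S a (fun j y => ∫ κ, f j (y, κ) ∂ρ) N z.1) atTop (𝓝 0) := by
    intro f hf hfb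
    filter_upwards [hθ m a ha ha0 f hf hfb] with z hz
    refine hz.congr fun N => ?_
    unfold Pool.Agent.R205.PC.dif avg
    rw [← mul_sub, ← Finset.sum_sub_distrib]
    congr 1
    have e0 : Finset.Icc 1 N = Finset.Ico 1 (N + 1) := by ext; simp
    rw [e0, Finset.sum_Ico_eq_sum_range]
    refine Finset.sum_congr (by simp) fun n _ => ?_
    have e1 : ∏ j ∈ Finset.range m, Pool.Agent.R205.PC.fx f j
        ((Pool.Agent.R205.PC.sk S (Pool.Agent.R205.PC.cc φ ξ θ))^[Pool.Agent.R205.PC.ex a j * (n + 1)] z) =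
        ∏ j, f j (T^[a j * (1 + n)] z) := by
      rw [Finset.prod_range]
      refine Finset.prod_congr rfl fun j _ => ?_
      rw [Pool.Agent.R205.PC.fx, dif_pos j.2, Pool.Agent.R205.PC.ex, dif_pos j.2, add_comm 1 n, hTsk]
    have e2 : ∏ j ∈ Finset.range m, Pool.Agent.R205.PC.fm ρ (Pool.Agent.R205.PC.fx f j)
        (S^[Pool.Agent.R205.PC.ex a j * (n + 1)] z.1) =
        ∏ j, ∫ κ, f j (S^[a j * (1 + n)] z.1, κ) ∂ρ := by
      rw [Finset.prod_range]
      refine Finset.prod_congr rfl fun j _ => ?_
      rw [Pool.Agent.R205.PC.fx, dif_pos j.2, Pool.Agent.R205.PC.ex, dif_pos j.2, add_comm 1 n]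
      rfl
    rw [e1, e2]
  refine ⟨hdiff, ?_, ?_⟩
  · intro hconv g hg hgb
    obtain ⟨C, hC⟩ := hgb
    have h1 := hconv (fun j z => g j z.1) (fun j => (hg j).comp measurable_fst) ⟨C, fun j z => hC j _⟩
    have h2 := Measure.ae_ae_of_ae_prod h1
    filter_upwards [h2] with y hy
    obtain ⟨x, L, hL⟩ := hy.exists
    refine ⟨L, hL.congr fun N => ?_⟩
    unfold avg
    congr 1
    refine Finset.sum_congr rfl fun n _ => Finset.prod_congr rfl fun j _ => ?_
    change g j (T^[a j * n] (y, x)).1 = _
    rw [hTsk, Pool.Agent.R205.PC.sk_iter]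
  · intro hconv f hf hfb
    obtain ⟨C, hC⟩ := hfb
    have h1 := hconv (fun j y => ∫ κ, f j (y, κ) ∂ρ) (fun j => Pool.Agent.R205.PC.fm_meas ρ (f j) (hf j))
      ⟨C, fun j y => Pool.Agent.R205.PC.fm_bound ρ (f j) C (hC j) y⟩
    have h1' : ∀ᵐ z ∂(μ.prod ρ), ∃ L, Tendsto (fun N => avg S a (fun j y => ∫ κ, f j (y, κ) ∂ρ) N z.1) atTop (𝓝 L) :=
      Measure.quasiMeasurePreserving_fst.ae h1
    filter_upwards [h1', hdiff f hf ⟨C, hC⟩] with z hz1 hz2
    obtain ⟨L, hL⟩ := hz1
    refine ⟨L, ?_⟩
    have := hz2.add hL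
    rw [zero_add] at this
    exact this.congr fun N => by ring

end Pool.Agent.Results.MP_9721b5_an.AlmostEveryCocycle
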