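import Pool.Agent.Y957.MC.Fin7
import Pool.Agent.R497.Er.Cub

set_option autoImplicit false

/-!
# Reduction of the problem to almost all times of flows

The following are equivalent.

* (i) Q1: for every measure preserving system `(X, μ, T)`, `T` invertible, and all `f, g, h ∈ L^∞` the averages
  `(1/N) ∑ f(T^n x) g(T^(2n) x) h(T^(3n) x)` converge for almost every `x`.
* (ii) For every measurable measure preserving flow `S` and all `f, g, h ∈ L^∞` the continuous averages
  `(1/V) ∫_0^V f(S_v x) g(S_2v x) h(S_3v x) dv` converge for almost every `x`.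
* (iii) For every flow `S` and all `f, g, h`, the averages in (i) converge almost everywhere for the time-`a` map
  `T = S_a`, for almost every `a > 0`.
* (iv) For every flow `S` and all `f, g, h` the set of the times `a > 0` such that they do so is not a null set.

So a null set of times of each flow may be left out in Q1. In other words: if Q1 is false, then there are ONE flow `S`
and ONE triple `f, g, h` such that the averages of `f, g, h` for the map `S_a` fail to converge almost everywhere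
for almost every time `a > 0`.

Proof. (iv) implies (ii): for almost every `a > 0` and almost every `x` the averages for `S_a` converge to `L` if and
only if the continuous averages do (`Pool.Agent.Y957.MC.bes_conv`). (ii) implies (i): for the suspension flow of `T` on
`[0, 1) × X`, `F(s, x) = f(x)` for `s` in `[3/8, 1/2)` and `0` for the other `s`, and `G(s, x) = g(x)`,
`H(s, x) = h(x)`, the continuous averages at `(s, x)`, `s` in `[3/8, 1/2)`, are asymptotic to `1/8` of the averages in
(i) at `x`.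
-/

namespace Pool.Agent.Results.MP_9721b5_an.FlowReduction

open MeasureTheory Filter Finset

universe u

/-- a measurable measure preserving flow -/
structure IsFlow {X : Type u} [MeasurableSpace X] (μ : Measure X) (S : ℝ → X → X) : Prop where
  meas : Measurable (fun p : ℝ × X => S p.1 p.2)
  zero : ∀ x, S 0 x = x
  add : ∀ s t x, S (s + t) x = S s (S t x)
  mp : ∀ t, MeasurePreserving (S t) μ μ

/-- `f` is in `L^∞` -/
def EssBdd {X : Type u} [MeasurableSpace X] (μ : Measure X) (f : X → ℂ) : Prop :=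
  AEStronglyMeasurable f μ ∧ ∃ C : ℝ, ∀ᵐ x ∂μ, ‖f x‖ ≤ C

/-- the averages of the problem converge almost everywhere -/
def Conv {X : Type u} [MeasurableSpace X] (μ : Measure X) (T : X → X) (f g h : X → ℂ) : Prop :=
  ∀ᵐ x ∂μ, ∃ L : ℂ, Tendsto (fun N : ℕ => (1 / (N : ℂ)) * ∑ n ∈ Icc 1 N,
    f (T^[n] x) * g (T^[2 * n] x) * h (T^[3 * n] x)) atTop (nhds L)

/-- (i) -/
def Q1 : Prop := ∀ (X : Type u) [MeasurableSpace X] (μ : Measure X) [IsProbabilityMeasure μ] (T : X ≃ᵐ X),
  MeasurePreserving T μ μ → ∀ f g h : X → ℂ, EssBdd μ f → EssBdd μ g → EssBdd μ h → Conv μ T f g h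

/-- (ii) -/
def ContinuousTime : Prop := ∀ (X : Type u) [MeasurableSpace X] (μ : Measure X) [IsProbabilityMeasure μ]
  (S : ℝ → X → X), IsFlow μ S → ∀ f g h : X → ℂ, EssBdd μ f → EssBdd μ g → EssBdd μ h →
    ∀ᵐ x ∂μ, ∃ L : ℂ, Tendsto (fun V : ℝ => (1 / (V : ℂ)) * ∫ v in (0 : ℝ)..V,
      f (S v x) * g (S (2 * v) x) * h (S (3 * v) x)) atTop (nhds L)

/-- (iii) -/
def AlmostAllTimes : Prop := ∀ (X : Type u) [MeasurableSpace X] (μ : Measure X) [IsProbabilityMeasure μ]
  (S : ℝ → X → X), IsFlow μ S → ∀ f g h : X → ℂ, EssBdd μ f → EssBdd μ g → EssBdd μ h →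
    ∀ᵐ a : ℝ, 0 < a → Conv μ (S a) f g h

/-- (iv) -/
def ManyTimes : Prop := ∀ (X : Type u) [MeasurableSpace X] (μ : Measure X) [IsProbabilityMeasure μ]
  (S : ℝ → X → X), IsFlow μ S → ∀ f g h : X → ℂ, EssBdd μ f → EssBdd μ g → EssBdd μ h →
    volume {a : ℝ | 0 < a ∧ Conv μ (S a) f g h} ≠ 0

lemma iter {X : Type u} [MeasurableSpace X] {μ : Measure X} {S : ℝ → X → X} (hS : IsFlow μ S) (a : ℝ) (n : ℕ)
    (x : X) : (S a)^[n] x = S (n * a) x := by
  induction n with
  | zero => simp [hS.zero]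
  | succ n ih =>
    rw [Function.iterate_succ_apply', ih, ← hS.add]
    congr 1
    push_cast
    ring

/-- the comparison of the averages at almost every time with the continuous averages -/
lemma compare {X : Type u} [MeasurableSpace X] {μ : Measure X} [IsProbabilityMeasure μ] {S : ℝ → X → X}
    (hS : IsFlow μ S) {f g h : X → ℂ} (hf : EssBdd μ f) (hg : EssBdd μ g) (hh : EssBdd μ h) :
    (∀ᵐ a : ℝ, 0 < a → ∀ᵐ x ∂μ, ∀ L : ℂ,
      (Tendsto (fun N : ℕ => (1 / (N : ℂ)) * ∑ n ∈ Icc 1 N,
        f ((S a)^[n] x) * g ((S a)^[2 * n] x) * h ((S a)^[3 * n] x)) atTop (nhds L) ↔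
      Tendsto (fun V : ℝ => (1 / (V : ℂ)) * ∫ v in (0 : ℝ)..V,
        f (S v x) * g (S (2 * v) x) * h (S (3 * v) x)) atTop (nhds L))) ∧
    ∀ᵐ x ∂μ, ∀ V W : ℝ, IntervalIntegrable (fun v => f (S v x) * g (S (2 * v) x) * h (S (3 * v) x)) volume V W := by
  have hσ : ∀ j : Fin 3, Pool.Agent.Y957.MC.IsFlow μ (fun t : ℝ => S (((j : ℕ) + 1 : ℝ) * t)) := fun j =>
    { meas := hS.meas.comp ((measurable_fst.const_mul _).prodMk measurable_snd)
      zero := fun x => by rw [mul_zero]; exact hS.zero x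
      add := fun s t x => by rw [mul_add]; exact hS.add _ _ x
      mp := fun t => hS.mp _ }
  have hF : ∀ j : Fin 3, AEStronglyMeasurable ((![f, g, h] : Fin 3 → X → ℂ) j) μ := by
    intro j
    fin_cases j
    · exact hf.1
    · exact hg.1
    · exact hh.1
  have hFb : ∀ j : Fin 3, ∃ C : ℝ, ∀ᵐ x ∂μ, ‖(![f, g, h] : Fin 3 → X → ℂ) j x‖ ≤ C := by
    intro j
    fin_cases j
    · exact hf.2
    · exact hg.2
    · exact hh.2
  have hB : Pool.Agent.Y957.MC.Bes (fun _ => 1) := fun ε hε =>
    ⟨{0}, fun _ => 1, Eventually.of_forall fun N => by simp [hε.le]⟩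
  have hm : Tendsto (fun N : ℕ => (1 / (N : ℂ)) * ∑ n ∈ Icc 1 N, (fun _ : ℕ => (1 : ℂ)) n) atTop (nhds 1) := by
    refine tendsto_const_nhds.congr' ?_
    filter_upwards [eventually_gt_atTop 0] with N hN
    have hN' : (N : ℂ) ≠ 0 := by exact_mod_cast hN.ne'
    simp [hN']
  have e3 : ∀ (v : ℝ) (x : X), ∏ j : Fin 3, (![f, g, h] : Fin 3 → X → ℂ) j (S (((j : ℕ) + 1 : ℝ) * v) x) =
      f (S v x) * g (S (2 * v) x) * h (S (3 * v) x) := by
    intro v x
    rw [Fin.prod_univ_three]
    have e2 : (1 : ℝ) + 1 = 2 := by norm_num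
    have e3 : (2 : ℝ) + 1 = 3 := by norm_num
    simp [e2, e3]
  refine ⟨?_, ?_⟩
  · filter_upwards [Pool.Agent.Y957.MC.bes_conv hB hm hσ hF hFb] with a ha ha0
    filter_upwards [ha ha0] with x hx L
    have h3 := hx.2 one_ne_zero L
    simp only [one_mul, e3] at h3
    rw [← h3]
    have e4 : ∀ n : ℕ, f ((S a)^[n] x) * g ((S a)^[2 * n] x) * h ((S a)^[3 * n] x) =
        f (S (a * n) x) * g (S (2 * (a * n)) x) * h (S (3 * (a * n)) x) := by
      intro n
      rw [iter hS, iter hS, iter hS]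
      push_cast
      rw [show (n : ℝ) * a = a * n from by ring, show (2 : ℝ) * n * a = 2 * (a * n) from by ring,
        show (3 : ℝ) * n * a = 3 * (a * n) from by ring]
    simp only [e4]
  · filter_upwards [Pool.Agent.Y957.MC.orb_good hσ hF hFb] with x hx V W
    have h3 := hx.2 V W
    simpa only [e3] using h3

theorem result : [Q1.{u}, ContinuousTime.{u}, AlmostAllTimes.{u}, ManyTimes.{u}].TFAE := by
  tfae_have 1 → 3 := by
    intro H X _ μ _ S hS f g h hf hg hh
    refine ae_of_all _ fun a _ => ?_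
    exact H X μ
      { toFun := S a
        invFun := S (-a)
        left_inv := fun x => by rw [← hS.add, neg_add_cancel, hS.zero]
        right_inv := fun x => by rw [← hS.add, add_neg_cancel, hS.zero]
        measurable_toFun := (hS.mp a).measurable
        measurable_invFun := (hS.mp (-a)).measurable } (hS.mp a) f g h hf hg hh
  tfae_have 3 → 4 := by
    intro H X _ μ _ S hS f g h hf hg hh h0
    have h1 := H X μ S hS f g h hf hg hh
    have h2 : (volume : Measure ℝ) (Set.Ioi 0) = 0 := by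
      refine le_antisymm ?_ zero_le
      calc (volume : Measure ℝ) (Set.Ioi 0) ≤ volume ({a : ℝ | ¬ (0 < a → Conv μ (S a) f g h)} ∪
            {a : ℝ | 0 < a ∧ Conv μ (S a) f g h}) := by
            refine measure_mono fun a ha => ?_
            by_cases hc : Conv μ (S a) f g h
            · exact Or.inr ⟨ha, hc⟩
            · exact Or.inl fun hcon => hc (hcon ha)
        _ ≤ _ := measure_union_le _ _
        _ = 0 := by rw [h0, ae_iff.1 h1, add_zero]
    simp at h2
  tfae_have 4 → 2 := by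
    intro H X _ μ _ S hS f g h hf hg hh
    obtain ⟨hc, -⟩ := compare hS hf hg hh
    by_contra hcon
    apply H X μ S hS f g h hf hg hh
    refine measure_mono_null ?_ (ae_iff.1 hc)
    rintro a ⟨ha0, ha⟩
    rw [Set.mem_ofPred_eq]
    intro hcomp
    apply hcon
    filter_upwards [hcomp ha0, ha] with x hx hL
    obtain ⟨L, hL⟩ := hL
    exact ⟨L, (hx L).1 hL⟩
  tfae_have 2 → 1 := by
    intro H X _ μ _ T hT f g h hf hg hh
    set ν : Measure (ℝ × X) := (volume.restrict (Set.Ico (0 : ℝ) 1)).prod μ with hν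
    have hS : IsFlow ν (Pool.Agent.R497.Er.sus T) :=
      ⟨Pool.Agent.R497.Er.sus_meas T, Pool.Agent.R497.Er.sus_zero T, Pool.Agent.R497.Er.sus_add T,
        Pool.Agent.R497.Er.sus_mp T hT⟩
    have hq : Measure.QuasiMeasurePreserving (Prod.snd : ℝ × X → X) ν μ := Measure.quasiMeasurePreserving_snd
    have hset : MeasurableSet {p : ℝ × X | Int.fract p.1 ∈ Set.Ico (3 / 8 : ℝ) (1 / 2)} :=
      (measurable_fract.comp measurable_fst) measurableSet_Ico
    have lift : ∀ {k : X → ℂ}, EssBdd μ k → EssBdd ν (fun p : ℝ × X => k p.2) := by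
      rintro k ⟨h1, C, h2⟩
      exact ⟨h1.comp_quasiMeasurePreserving hq, C, hq.ae h2⟩
    have hF : EssBdd ν (fun p : ℝ × X => if Int.fract p.1 ∈ Set.Ico (3 / 8 : ℝ) (1 / 2) then f p.2 else 0) := by
      obtain ⟨h1, C, h2⟩ := lift hf
      refine ⟨?_, |C|, ?_⟩
      · refine (h1.indicator hset).congr (ae_of_all _ fun p => ?_)
        simp only [Set.indicator, Set.mem_ofPred_eq]
      · filter_upwards [h2] with p hp
        split_ifs
        · exact hp.trans (le_abs_self _)
        · rw [norm_zero]; exact abs_nonneg _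
    have h1 := H (ℝ × X) ν (Pool.Agent.R497.Er.sus T) hS _ _ _ hF (lift hg) (lift hh)
    have h2 := (compare hS hF (lift hg) (lift hh)).2
    have h3 := Measure.ae_ae_of_ae_prod (h1.and h2)
    have h4 : (volume.restrict (Set.Ico (0 : ℝ) 1)) (Set.Ico (3 / 8 : ℝ) (1 / 2)) ≠ 0 := by
      rw [Measure.restrict_apply measurableSet_Ico, Set.inter_eq_self_of_subset_left, Real.volume_Ico]
      · norm_num
      · rintro s ⟨h5, h6⟩
        exact ⟨by linarith, by linarith⟩
    obtain ⟨s, hs, h5⟩ : ∃ s ∈ Set.Ico (3 / 8 : ℝ) (1 / 2), ∀ᵐ x ∂μ,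
        (∃ L : ℂ, Tendsto (fun V : ℝ => (1 / (V : ℂ)) * ∫ v in (0 : ℝ)..V,
          Pool.Agent.R497.Er.G T f g h s x v) atTop (nhds L)) ∧
        ∀ V W : ℝ, IntervalIntegrable (Pool.Agent.R497.Er.G T f g h s x) volume V W := by
      by_contra hcon
      apply h4
      refine measure_mono_null ?_ (ae_iff.1 h3)
      intro s hs
      rw [Set.mem_ofPred_eq]
      intro h6
      exact hcon ⟨s, hs, h6⟩
    filter_upwards [h5] with x hx
    obtain ⟨⟨L, hL⟩, hi⟩ := hx
    exact ⟨8 * L, Pool.Agent.R497.Er.cub_of_cont T f g h hs.1 hs.2 x L (hi 0 (1 / 2)) hL⟩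
  tfae_finish

end Pool.Agent.Results.MP_9721b5_an.FlowReduction
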