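import Pool.Agent.R497.Er.Bty

set_option autoImplicit false

/-!
# Cubic averages with one generic speed, for every measure preserving map

Let `S` be ANY measure preserving map of a probability space `(X, μ)` (not assumed invertible or ergodic), `h` in
`L^∞` and `p(n) = n^θ` with `θ > 0`, or `p` a real polynomial which tends to infinity.

1. For almost every `x`: for EVERY bounded sequence of weights `B` and almost every real `a > 0`
   `(1/N) ∑ B(n) (h(S^[a p(n)] x) - E(h|S)(x)) → 0`. The null set of exceptional points does not depend on `B`.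
2. For all `T`, `f`, `g` and almost every `a > 0`, almost everywhere
   `(1/N) ∑ f(T^n x) g(T^(2n) x) h(S^[a p(n)] x) - E(h|S)(x) (1/N) ∑ f(T^n x) g(T^(2n) x) → 0`, and the same for
   arbitrary uniformly bounded measurable weights `W_n(x)` in place of `f(T^n x) g(T^(2n) x)`.

For `S = T` and `p(n) = n`: the averages of the problem, with the speeds `1, 2, 3` replaced by `1, 2, a`, are
asymptotic to a product of a conditional expectation and bilinear averages, for every measure preserving map `T` and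
almost every real speed `a > 0`. The bilinear averages converge almost everywhere by Bourgain's theorem.

Proof (`Pool.Agent.Y957.MC`, theorem `bty_all`): for coboundaries and fixed `x`, by Parseval in `log a` the mean square
over `a` in `[A, 2A]` is a sum over `k` of `|c_k(x)|² |β_k|²`, where the `c_k(x)` are the Fourier coefficients of
`s ↦ h(S^[M e^s] x)` and the `β_k` are Dirichlet polynomials with the coefficients `B(n)`. The `c_k(x)` are small in
mean, by stationarity and an oscillatory integral, and few `β_k` are large (Halász-Montgomery, van der Corput).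
-/

namespace Pool.Agent.Results.MP_9721b5_an.GenericThirdSpeed

open MeasureTheory Filter Finset

universe u

/-- the sequences `n^θ`, `θ > 0`, and real polynomials tending to infinity -/
def IsTimes (p : ℕ → ℝ) : Prop :=
  (∃ θ : ℝ, 0 < θ ∧ ∀ n : ℕ, p n = (n : ℝ) ^ θ) ∨
  (∃ P : Polynomial ℝ, 0 < P.natDegree ∧ 0 < P.leadingCoeff ∧ ∀ n : ℕ, p n = P.eval (n : ℝ))

/-- `f` is in `L^∞` -/
def EssBdd {X : Type u} [MeasurableSpace X] (μ : Measure X) (f : X → ℂ) : Prop :=
  AEStronglyMeasurable f μ ∧ ∃ C : ℝ, ∀ᵐ x ∂μ, ‖f x‖ ≤ C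

theorem result (X : Type u) [MeasurableSpace X] (μ : Measure X) [IsProbabilityMeasure μ] (S : X → X)
    (hS : MeasurePreserving S μ μ) (h : X → ℂ) (hh : EssBdd μ h) (p : ℕ → ℝ) (hp : IsTimes p) :
    (∀ᵐ x ∂μ, ∀ B : ℕ → ℂ, (∃ C : ℝ, ∀ n, ‖B n‖ ≤ C) → ∀ᵐ a : ℝ, 0 < a →
      Tendsto (fun N : ℕ => (1 / (N : ℂ)) * ∑ n ∈ Icc 1 N, B n *
        (h (S^[⌊a * p n⌋₊] x) - (μ[h | MeasurableSpace.invariants S]) x)) atTop (nhds 0)) ∧
    (∀ W : ℕ → X → ℂ, (∀ n, AEStronglyMeasurable (W n) μ) → (∃ C : ℝ, ∀ n, ∀ᵐ x ∂μ, ‖W n x‖ ≤ C) →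
      ∀ᵐ a : ℝ, 0 < a → ∀ᵐ x ∂μ,
        Tendsto (fun N : ℕ => (1 / (N : ℂ)) * ∑ n ∈ Icc 1 N, W n x * h (S^[⌊a * p n⌋₊] x) -
          (μ[h | MeasurableSpace.invariants S]) x * ((1 / (N : ℂ)) * ∑ n ∈ Icc 1 N, W n x)) atTop (nhds 0)) ∧
    (∀ (T : X → X) (f g : X → ℂ), MeasurePreserving T μ μ → EssBdd μ f → EssBdd μ g →
      ∀ᵐ a : ℝ, 0 < a → ∀ᵐ x ∂μ,
        Tendsto (fun N : ℕ => (1 / (N : ℂ)) * ∑ n ∈ Icc 1 N, f (T^[n] x) * g (T^[2 * n] x) * h (S^[⌊a * p n⌋₊] x) -
          (μ[h | MeasurableSpace.invariants S]) x *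
            ((1 / (N : ℂ)) * ∑ n ∈ Icc 1 N, f (T^[n] x) * g (T^[2 * n] x))) atTop (nhds 0)) := by
  have hG : Pool.Agent.Y957.MC.Good p := by
    rcases hp with ⟨θ, h1, h2⟩ | ⟨P, h1, h2, h3⟩
    · rw [show p = fun n : ℕ => (n : ℝ) ^ θ from funext h2]
      exact Pool.Agent.Y957.MC.good_pow h1
    · rw [show p = fun n : ℕ => P.eval (n : ℝ) from funext h3]
      exact Pool.Agent.Y957.MC.good_poly h1 h2
  have hW : ∀ W : ℕ → X → ℂ, (∀ n, AEStronglyMeasurable (W n) μ) → (∃ C : ℝ, ∀ n, ∀ᵐ x ∂μ, ‖W n x‖ ≤ C) →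
      ∀ᵐ a : ℝ, 0 < a → ∀ᵐ x ∂μ,
        Tendsto (fun N : ℕ => (1 / (N : ℂ)) * ∑ n ∈ Icc 1 N, W n x * h (S^[⌊a * p n⌋₊] x) -
          (μ[h | MeasurableSpace.invariants S]) x * ((1 / (N : ℂ)) * ∑ n ∈ Icc 1 N, W n x)) atTop (nhds 0) := by
    intro W hW hWb
    filter_upwards [Pool.Agent.R497.Er.bty_weights hG hS hh.1 hh.2 hW hWb] with a ha ha0
    filter_upwards [ha ha0] with x hx
    refine hx.congr fun N => ?_
    simp only [mul_sub]
    rw [sum_sub_distrib, mul_sub, ← sum_mul]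
    ring
  refine ⟨?_, hW, ?_⟩
  · filter_upwards [Pool.Agent.R497.Er.bty_cx hG hS hh.1 hh.2] with x hx B hB
    obtain ⟨C, hC⟩ := hB
    have hC0 : 0 ≤ C := (norm_nonneg _).trans (hC 0)
    obtain ⟨D, hD⟩ : ∃ D : ℝ, D = C + 1 := ⟨_, rfl⟩
    have hD0 : 0 < D := by rw [hD]; positivity
    have h2 := hx (fun n => (1 / (D : ℂ)) * B n) (fun n => by
      rw [norm_mul, norm_div, norm_one, Complex.norm_real, Real.norm_eq_abs, abs_of_pos hD0, one_div,
        inv_mul_le_iff₀ hD0, mul_one]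
      have := hC n
      linarith)
    rw [ae_restrict_iff' measurableSet_Ioi] at h2
    filter_upwards [h2] with a ha ha0
    have h3 := (ha ha0).const_mul (D : ℂ)
    rw [mul_zero] at h3
    have hDc : (D : ℂ) ≠ 0 := by exact_mod_cast hD0.ne'
    refine h3.congr fun N => ?_
    rw [Finset.mul_sum, Finset.mul_sum, Finset.mul_sum]
    refine sum_congr rfl fun n _ => ?_
    field_simp
  · intro T f g hT hf hg
    obtain ⟨Cf, hCf⟩ := hf.2
    obtain ⟨Cg, hCg⟩ := hg.2
    exact hW (fun n x => f (T^[n] x) * g (T^[2 * n] x))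
      (fun n => (hf.1.comp_measurePreserving (hT.iterate n)).mul (hg.1.comp_measurePreserving (hT.iterate (2 * n))))
      ⟨|Cf| * |Cg|, fun n => by
        filter_upwards [(hT.iterate n).quasiMeasurePreserving.ae hCf,
          (hT.iterate (2 * n)).quasiMeasurePreserving.ae hCg] with x h1 h2
        rw [norm_mul]
        exact mul_le_mul (h1.trans (le_abs_self _)) (h2.trans (le_abs_self _)) (norm_nonneg _) (abs_nonneg _)⟩

end Pool.Agent.Results.MP_9721b5_an.GenericThirdSpeed
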