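import Pool.Agent.Y957.MC.Fin7

set_option autoImplicit false

/-!
# Multiple averages at almost every time of a flow: comparison with continuous averages and a zero-one law

Let `τ_1, ..., τ_m` be measurable measure preserving flows on a probability space `(X, μ)`, with no relation between
them (they may all be equal), `c_1, ..., c_m` real speeds and `f_1, ..., f_m` in `L^∞`. With all `τ_j = S`,
`c = (1, 2, 3)` and `T = S_a` the averages of `∏ f_j (τ_j(c_j a n) x)` over `n ≤ N` are the averages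
`(1/N) ∑ f(T^n x) g(T^(2n) x) h(T^(3n) x)` of the problem.

1. For every Besicovitch almost periodic sequence of weights `B` with mean `b` (for instance `B = 1`, periodic `B`, or
   `B(n) = e(α n)`), almost every `a > 0` and almost every `x`, the difference between
   `(1/N) ∑ B(n) ∏ f_j (τ_j(c_j a n) x)` and `b (1/(a N)) ∫_0^(a N) ∏ f_j (τ_j(c_j v) x) dv` tends to zero.
2. For almost every `a > 0` and almost every `x` the averages at time `a` converge to `L` if and only if the
   continuous averages, which do not depend on `a`, converge to `L`.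
3. Zero-one law: the averages converge almost everywhere for almost all times `a > 0`, or for almost no time `a > 0`.

Without a flow, for functions `v ↦ F(v)` on the line which are only bounded and measurable, 2 is false, already for
`F` of period one and even with convergence only asked for almost every `a` (Marstrand's counterexample to Khinchin's
conjecture).

Proof (`Pool.Agent.Y957.MC`, theorems `det_all`, `mul_all`, `bes_conv`): for a bounded Lipschitz `F` on the line,
Parseval in the variable `log a` reduces the comparison to the orthogonality of `B - b` to `n^(it)` with a power saving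
uniformly for `|t| ≤ N^Q` (van der Corput, Halász-Montgomery); the `f_j` are approximated by functions which are smooth
along the flows, and the errors are controlled with second moments of averages of nonnegative functions at the times
`a n`.
-/

namespace Pool.Agent.Results.MP_9721b5_an.ZeroOneTimes

open MeasureTheory Filter Finset

universe u

/-- a measurable measure preserving flow -/
structure IsFlow {X : Type u} [MeasurableSpace X] (μ : Measure X) (τ : ℝ → X → X) : Prop where
  meas : Measurable (fun p : ℝ × X => τ p.1 p.2)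
  zero : ∀ x, τ 0 x = x
  add : ∀ s t x, τ (s + t) x = τ s (τ t x)
  mp : ∀ t, MeasurePreserving (τ t) μ μ

/-- Besicovitch almost periodic sequences: trigonometric polynomials approximate them in mean -/
def Besicovitch (B : ℕ → ℂ) : Prop := ∀ ε : ℝ, 0 < ε → ∃ (s : Finset ℝ) (c : ℝ → ℂ), ∀ᶠ N : ℕ in atTop,
  (1 / (N : ℝ)) * ∑ n ∈ Icc 1 N,
    ‖B n - ∑ α ∈ s, c α * Complex.exp (((2 * Real.pi * α * n : ℝ) : ℂ) * Complex.I)‖ ≤ ε

/-- the averages at the time `a` -/
noncomputable def discAvg {X : Type u} {m : ℕ} (τ : Fin m → ℝ → X → X) (c : Fin m → ℝ) (f : Fin m → X → ℂ)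
    (a : ℝ) (x : X) (N : ℕ) : ℂ :=
  (1 / (N : ℂ)) * ∑ n ∈ Icc 1 N, ∏ j, f j (τ j (c j * (a * n)) x)

/-- the continuous averages -/
noncomputable def contAvg {X : Type u} {m : ℕ} (τ : Fin m → ℝ → X → X) (c : Fin m → ℝ) (f : Fin m → X → ℂ)
    (x : X) (V : ℝ) : ℂ :=
  (1 / (V : ℂ)) * ∫ v in (0 : ℝ)..V, ∏ j, f j (τ j (c j * v) x)

theorem result (X : Type u) [MeasurableSpace X] (μ : Measure X) [IsProbabilityMeasure μ] (m : ℕ)
    (τ : Fin m → ℝ → X → X) (c : Fin m → ℝ) (f : Fin m → X → ℂ) (hτ : ∀ j, IsFlow μ (τ j))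
    (hf : ∀ j, AEStronglyMeasurable (f j) μ) (hfb : ∀ j, ∃ C : ℝ, ∀ᵐ x ∂μ, ‖f j x‖ ≤ C) :
    (∀ (B : ℕ → ℂ) (b : ℂ), Besicovitch B →
      Tendsto (fun N : ℕ => (1 / (N : ℂ)) * ∑ n ∈ Icc 1 N, B n) atTop (nhds b) →
      ∀ᵐ a : ℝ, 0 < a → ∀ᵐ x ∂μ,
        Tendsto (fun N : ℕ => (1 / (N : ℂ)) * ∑ n ∈ Icc 1 N, B n * ∏ j, f j (τ j (c j * (a * n)) x) -
          b * contAvg τ c f x (a * N)) atTop (nhds 0)) ∧
    (∀ᵐ a : ℝ, 0 < a → ∀ᵐ x ∂μ, ∀ L : ℂ,
      Tendsto (discAvg τ c f a x) atTop (nhds L) ↔ Tendsto (contAvg τ c f x) atTop (nhds L)) ∧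
    ((∀ᵐ a : ℝ, 0 < a → ∀ᵐ x ∂μ, ∃ L : ℂ, Tendsto (discAvg τ c f a x) atTop (nhds L)) ∨
      (∀ᵐ a : ℝ, 0 < a → ¬ ∀ᵐ x ∂μ, ∃ L : ℂ, Tendsto (discAvg τ c f a x) atTop (nhds L))) := by
  have hσ : ∀ j, Pool.Agent.Y957.MC.IsFlow μ (fun t : ℝ => τ j (c j * t)) := fun j =>
    { meas := (hτ j).meas.comp ((measurable_fst.const_mul (c j)).prodMk measurable_snd)
      zero := fun x => by rw [mul_zero]; exact (hτ j).zero x
      add := fun s t x => by rw [mul_add]; exact (hτ j).add _ _ x
      mp := fun t => (hτ j).mp _ }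
  have h2 : ∀ᵐ a : ℝ, 0 < a → ∀ᵐ x ∂μ, ∀ L : ℂ,
      Tendsto (discAvg τ c f a x) atTop (nhds L) ↔ Tendsto (contAvg τ c f x) atTop (nhds L) := by
    have hB : Pool.Agent.Y957.MC.Bes (fun _ => 1) := fun ε hε =>
      ⟨{0}, fun _ => 1, Eventually.of_forall fun N => by simp [hε.le]⟩
    have hm : Tendsto (fun N : ℕ => (1 / (N : ℂ)) * ∑ n ∈ Icc 1 N, (fun _ : ℕ => (1 : ℂ)) n) atTop (nhds 1) := by
      refine tendsto_const_nhds.congr' ?_
      filter_upwards [eventually_gt_atTop 0] with N hN
      have hN' : (N : ℂ) ≠ 0 := by exact_mod_cast hN.ne'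
      simp [hN']
    filter_upwards [Pool.Agent.Y957.MC.bes_conv hB hm hσ hf hfb] with a ha ha0
    filter_upwards [ha ha0] with x hx L
    have h3 := hx.2 one_ne_zero L
    simp only [one_mul] at h3
    exact h3
  refine ⟨?_, h2, ?_⟩
  · intro B b hB hb
    filter_upwards [Pool.Agent.Y957.MC.bes_conv (B := B) (b := b) hB hb hσ hf hfb] with a ha ha0
    filter_upwards [ha ha0] with x hx
    exact hx.1
  · by_cases hP : ∀ᵐ x ∂μ, ∃ L : ℂ, Tendsto (contAvg τ c f x) atTop (nhds L)
    · left
      filter_upwards [h2] with a ha ha0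
      filter_upwards [ha ha0, hP] with x hx hL
      obtain ⟨L, hL⟩ := hL
      exact ⟨L, (hx L).2 hL⟩
    · right
      filter_upwards [h2] with a ha ha0 hcon
      apply hP
      filter_upwards [ha ha0, hcon] with x hx hL
      obtain ⟨L, hL⟩ := hL
      exact ⟨L, (hx L).1 hL⟩

end Pool.Agent.Results.MP_9721b5_an.ZeroOneTimes
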